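import Pool.Agent.K4H92.CA.Surj

/-!
# The prefix sums of a surjective binary cellular automaton can be smaller than those of the identity

An explicit surjective cellular automaton `F` of radius `7` on `{0, 1}^ℤ` has
`N(F, 7, 0) + N(F, 7, 1) + N(F, 7, 2) = 0 + 3 + 4 = 7`, while the identity has `0 + 1 + 7 = 8`. So the answer to Q1 is no:
the inequality fails for `r = 7` and `n = 2`.

The rule was found by a SAT solver. Surjectivity is proved as follows: a set `rel` of `9500` pairs of words of length
`7` shows that two configurations with finitely many ones and the same image are equal (`Pool.Agent.K4H92.CA.Data`, a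
finite check by the kernel), and then counting shows that every finite word is in the image, and a compactness argument
gives all configurations (`Pool.Agent.K4H92.CA.Surj`).
-/

set_option autoImplicit false

namespace Pool.Agent.Results.MP_0d2fa0_co.PrefixSums

open Finset

/-- The cellular automaton `F` of radius `r` with local rule `f`: `F(x)_i = f(x_i, x_{i + 1}, …, x_{i + r})`. -/
def automaton (r : ℕ) (f : (Fin (r + 1) → Bool) → Bool) (x : ℤ → Bool) (i : ℤ) : Bool :=
  f (fun j => x (i + (j : ℕ)))

/-- `N(F, r, k)`: the number of words `w` of length `r + 1` with `f(w) = 1` and exactly `k` symbols `1`. -/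
def N (r : ℕ) (f : (Fin (r + 1) → Bool) → Bool) (k : ℕ) : ℕ :=
  (univ.filter (fun w : Fin (r + 1) → Bool => f w = true ∧ (univ.filter (fun j => w j = true)).card = k)).card

/-- the local rule of the identity, `f(w) = w_0` -/
def identityRule (r : ℕ) (w : Fin (r + 1) → Bool) : Bool := w 0

/-- the local rule of the example: its value at `w` is the bit number `∑ w_j 2 ^ (7 - j)` of the number `rule` -/
def f (w : Fin (7 + 1) → Bool) : Bool :=
  K4H92.CA.rule.testBit (∑ j : Fin (7 + 1), (w j).toNat * 2 ^ (7 - (j : ℕ)))

theorem automaton_eq : automaton 7 f = K4H92.CA.G := by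
  funext x i
  have h := Fin.sum_univ_eight (fun j : Fin 8 => (x (i + ((j : ℕ) : ℤ))).toNat * 2 ^ (7 - (j : ℕ)))
  unfold automaton f K4H92.CA.G K4H92.CA.st
  congr 1
  refine h.trans ?_
  simp
  ring

theorem counts : (List.range 9).map (N 7 f) = [0, 3, 4, 37, 40, 27, 12, 4, 1] := by
  decide +kernel

theorem counts_id : (List.range 9).map (N 7 (identityRule 7)) = [0, 1, 7, 21, 35, 35, 21, 7, 1] := by
  decide +kernel

/-- (1) The inequality of Q1 is false: it is not true that for every radius `r`, every surjective cellular automaton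
`F` on `{0, 1}^ℤ` of radius `r` and every `n ≤ r + 1` the sum of `N(F, r, k)` over `k ≤ n` is at least the sum of
`N(id, r, k)` over `k ≤ n`.

(2) Precisely, there is a surjective cellular automaton of radius `7` whose numbers `N(F, 7, k)`, `0 ≤ k ≤ 8`, are
`0, 3, 4, 37, 40, 27, 12, 4, 1`; those of the identity are `0, 1, 7, 21, 35, 35, 21, 7, 1`. The sums over `k ≤ 2` are
`7 < 8`. -/
theorem result :
    (¬ ∀ (r : ℕ) (f : (Fin (r + 1) → Bool) → Bool), Function.Surjective (automaton r f) →
      ∀ n : ℕ, n ≤ r + 1 →
        ∑ k ∈ range (n + 1), N r (identityRule r) k ≤ ∑ k ∈ range (n + 1), N r f k) ∧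
    (∃ f : (Fin (7 + 1) → Bool) → Bool, Function.Surjective (automaton 7 f) ∧
      (List.range 9).map (N 7 f) = [0, 3, 4, 37, 40, 27, 12, 4, 1] ∧
      (List.range 9).map (N 7 (identityRule 7)) = [0, 1, 7, 21, 35, 35, 21, 7, 1] ∧
      ∑ k ∈ range (2 + 1), N 7 f k < ∑ k ∈ range (2 + 1), N 7 (identityRule 7) k) := by
  have hs : Function.Surjective (automaton 7 f) := by
    rw [automaton_eq]
    exact K4H92.CA.surjective_G
  have hlt : ∑ k ∈ range (2 + 1), N 7 f k < ∑ k ∈ range (2 + 1), N 7 (identityRule 7) k := by
    decide +kernel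
  refine ⟨fun h => ?_, f, hs, counts, counts_id, hlt⟩
  exact absurd (h 7 f hs 2 (by norm_num)) (not_le.mpr hlt)

end Pool.Agent.Results.MP_0d2fa0_co.PrefixSums
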